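import Mathlib

/-!
# Dirichlet series whose coefficients have partial sums `o (x ^ (-1/2))`
-/

set_option autoImplicit false

namespace Pool.Agent.H280R3.MO

open Filter Topology Finset Complex Asymptotics

/-- partial sums -/
noncomputable def S (f : ℕ → ℂ) (N : ℕ) : ℂ := ∑ n ∈ Icc 1 N, f n

lemma S_succ (f : ℕ → ℂ) (N : ℕ) : S f (N + 1) = S f N + f (N + 1) := by
  unfold S
  rw [Finset.sum_Icc_succ_top (by omega)]

lemma S_zero (f : ℕ → ℂ) : S f 0 = 0 := by simp [S]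

lemma norm_cpow_diff (n : ℕ) (hn : 1 ≤ n) (s : ℂ) (hs : -1 < s.re) :
    ‖((n : ℂ) ^ (-s)) - ((n + 1 : ℕ) : ℂ) ^ (-s)‖ ≤ ‖s‖ * (n : ℝ) ^ (-s.re - 1) := by
  rcases eq_or_ne s 0 with rfl | hs0
  · simp
  have hn0 : (0 : ℝ) < n := by exact_mod_cast hn
  have key := norm_image_sub_le_of_norm_deriv_le_segment' (f := fun t : ℝ => (t : ℂ) ^ (-s))
    (f' := fun t : ℝ => (-s) * (t : ℂ) ^ (-s - 1)) (a := (n : ℝ)) (b := (n : ℝ) + 1)
    (C := ‖s‖ * (n : ℝ) ^ (-s.re - 1)) ?_ ?_ ((n : ℝ) + 1) (by constructor <;> linarith)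
  · have e : (n : ℝ) + 1 - n = 1 := by ring
    rw [e, mul_one] at key
    rw [norm_sub_rev]
    have e2 : (((n + 1 : ℕ) : ℂ)) = (((n : ℝ) + 1 : ℝ) : ℂ) := by push_cast; ring
    have e3 : ((n : ℂ)) = (((n : ℝ) : ℝ) : ℂ) := by push_cast; ring
    rw [e2, e3]
    exact key
  · intro x hx
    have hx0 : x ≠ 0 := by
      have := hx.1
      linarith
    exact (hasDerivAt_ofReal_cpow_const hx0 (neg_ne_zero.2 hs0)).hasDerivWithinAt
  · intro x hx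
    have hx1 : (n : ℝ) ≤ x := hx.1
    have hx0 : 0 < x := lt_of_lt_of_le hn0 hx1
    rw [norm_mul, norm_neg, Complex.norm_cpow_eq_rpow_re_of_pos hx0]
    refine mul_le_mul_of_nonneg_left ?_ (norm_nonneg _)
    simp only [sub_re, neg_re, one_re]
    exact Real.rpow_le_rpow_of_nonpos hn0 hx1 (by linarith)

/-- the `n`-th term of the series defining `G` -/
noncomputable def tm (f : ℕ → ℂ) (n : ℕ) (z : ℂ) : ℂ :=
  S f (n + 1) * (((n + 1 : ℕ) : ℂ) ^ (1 - z) - ((n + 2 : ℕ) : ℂ) ^ (1 - z))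

/-- the analytic continuation of `∑ n f(n) n ^ (-z)` -/
noncomputable def G (f : ℕ → ℂ) (z : ℂ) : ℂ := ∑' n, tm f n z

/-- bounded by `C n ^ (-1/2)` -/
def Bd (f : ℕ → ℂ) (C : ℝ) : Prop := 0 < C ∧ ∀ n : ℕ, 1 ≤ n → ‖S f n‖ ≤ C * (n : ℝ) ^ (-(1 / 2) : ℝ)

lemma exists_Bd (f : ℕ → ℂ)
    (h1 : (fun N : ℕ => S f N) =o[atTop] (fun N : ℕ => (N : ℝ) ^ (-(1 / 2) : ℝ))) :
    ∃ C, Bd f C := by
  obtain ⟨C, hC, h⟩ := bound_of_isBigO_nat_atTop h1.isBigO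
  refine ⟨C, hC, fun n hn => ?_⟩
  have hn0 : (0 : ℝ) < n := by exact_mod_cast hn
  have h2 : (0 : ℝ) < (n : ℝ) ^ (-(1 / 2) : ℝ) := Real.rpow_pos_of_pos hn0 _
  have := h (x := n) h2.ne'
  rwa [Real.norm_of_nonneg h2.le] at this

lemma norm_tm_le (f : ℕ → ℂ) (n : ℕ) (z : ℂ) (hz : 0 < z.re) :
    ‖tm f n z‖ ≤ ‖S f (n + 1)‖ * (‖z - 1‖ * ((n + 1 : ℕ) : ℝ) ^ (-z.re)) := by
  unfold tm
  rw [norm_mul]
  refine mul_le_mul_of_nonneg_left ?_ (norm_nonneg _)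
  have := norm_cpow_diff (n + 1) (by omega) (z - 1) (by simp; linarith)
  have e : -(z - 1) = 1 - z := by ring
  rw [e] at this
  have e2 : -(z - 1).re - 1 = -z.re := by simp
  rw [e2] at this
  exact this

lemma norm_tm_le' (f : ℕ → ℂ) (C : ℝ) (hC : Bd f C) (n : ℕ) (z : ℂ) (hz : 0 < z.re) :
    ‖tm f n z‖ ≤ C * ‖z - 1‖ * ((n + 1 : ℕ) : ℝ) ^ (-(1 / 2 + z.re)) := by
  refine (norm_tm_le f n z hz).trans ?_
  have h1 := hC.2 (n + 1) (by omega)
  have hn0 : (0 : ℝ) < ((n + 1 : ℕ) : ℝ) := by positivity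
  calc ‖S f (n + 1)‖ * (‖z - 1‖ * ((n + 1 : ℕ) : ℝ) ^ (-z.re))
      ≤ (C * ((n + 1 : ℕ) : ℝ) ^ (-(1 / 2) : ℝ)) * (‖z - 1‖ * ((n + 1 : ℕ) : ℝ) ^ (-z.re)) := by
        refine mul_le_mul_of_nonneg_right h1 (by positivity)
    _ = C * ‖z - 1‖ * (((n + 1 : ℕ) : ℝ) ^ (-(1 / 2) : ℝ) * ((n + 1 : ℕ) : ℝ) ^ (-z.re)) := by ring
    _ = _ := by rw [← Real.rpow_add hn0]; congr 2; ring

lemma summable_shift (a : ℝ) (ha : 1 < a) : Summable (fun n : ℕ => ((n + 1 : ℕ) : ℝ) ^ (-a)) := by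
  have h := (Real.summable_nat_rpow (p := -a)).2 (by linarith)
  exact (summable_nat_add_iff 1).2 h

lemma G_differentiableOn (f : ℕ → ℂ) (C : ℝ) (hC : Bd f C) :
    DifferentiableOn ℂ (G f) {z | 1 / 2 < z.re} := by
  intro z0 hz0
  have hz0' : 1 / 2 < z0.re := hz0
  set ε := (z0.re - 1 / 2) / 2 with hε
  have hε0 : 0 < ε := by rw [hε]; linarith
  set V : Set ℂ := {z | 1 / 2 + ε < z.re} ∩ Metric.ball 0 (‖z0‖ + 1) with hV
  have hVo : IsOpen V := (isOpen_lt continuous_const Complex.continuous_re).inter Metric.isOpen_ball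
  have hzV : z0 ∈ V := by
    refine ⟨?_, ?_⟩
    · show 1 / 2 + ε < z0.re
      rw [hε]; linarith
    · simp
  have hsum : Summable (fun n : ℕ => C * (‖z0‖ + 2) * ((n + 1 : ℕ) : ℝ) ^ (-(1 + ε))) :=
    (summable_shift (1 + ε) (by linarith)).mul_left _
  have hdiff : DifferentiableOn ℂ (fun w => ∑' n, tm f n w) V := by
    refine differentiableOn_tsum_of_summable_norm hsum (fun n => ?_) hVo (fun n w hw => ?_)
    · unfold tm
      have hd : ∀ m : ℕ, m ≠ 0 → Differentiable ℂ (fun w : ℂ => (m : ℂ) ^ (1 - w)) := by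
        intro m hm
        have hm' : (m : ℂ) ≠ 0 := by exact_mod_cast hm
        exact fun w => (((differentiableAt_const _).sub differentiableAt_id).const_cpow (Or.inl hm'))
      exact ((differentiable_const _).mul ((hd (n + 1) (by omega)).sub
        (hd (n + 2) (by omega)))).differentiableOn
    · have hw1 : 1 / 2 + ε < w.re := hw.1
      have hw2 : ‖w‖ < ‖z0‖ + 1 := by simpa using hw.2
      refine (norm_tm_le' f C hC n w (by linarith)).trans ?_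
      have h1 : ‖w - 1‖ ≤ ‖z0‖ + 2 := by
        calc ‖w - 1‖ ≤ ‖w‖ + ‖(1 : ℂ)‖ := norm_sub_le _ _
          _ ≤ _ := by rw [norm_one]; linarith
      have hn1 : (1 : ℝ) ≤ ((n + 1 : ℕ) : ℝ) := by push_cast; linarith [Nat.cast_nonneg (α := ℝ) n]
      have h2 : ((n + 1 : ℕ) : ℝ) ^ (-(1 / 2 + w.re)) ≤ ((n + 1 : ℕ) : ℝ) ^ (-(1 + ε)) :=
        Real.rpow_le_rpow_of_exponent_le hn1 (by linarith)
      have hC0 := hC.1.le
      gcongr
  exact ((hdiff.differentiableAt (hVo.mem_nhds hzV))).differentiableWithinAt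

lemma G_one (f : ℕ → ℂ) : G f 1 = 0 := by
  unfold G tm
  simp

lemma sum_Icc_shift (F : ℕ → ℂ) (N : ℕ) : ∑ n ∈ Icc 1 N, F n = ∑ n ∈ range N, F (n + 1) := by
  induction N with
  | zero => simp
  | succ N ih => rw [Finset.sum_Icc_succ_top (by omega), ih, Finset.sum_range_succ]

/-- Abel summation -/
lemma abel (f : ℕ → ℂ) (z : ℂ) (N : ℕ) :
    ∑ n ∈ Icc 1 N, f n * (n : ℂ) ^ (1 - z) =
      ∑ n ∈ range N, tm f n z + S f N * ((N + 1 : ℕ) : ℂ) ^ (1 - z) := by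
  induction N with
  | zero => simp [S_zero]
  | succ N ih =>
    rw [Finset.sum_Icc_succ_top (by omega), ih, Finset.sum_range_succ, tm, S_succ]
    push_cast
    ring

/-- coefficients of `G` -/
def cf (f : ℕ → ℂ) (n : ℕ) : ℂ := n * f n

lemma norm_f_le (f : ℕ → ℂ) (C : ℝ) (hC : Bd f C) (n : ℕ) (hn : 1 ≤ n) :
    ‖f n‖ ≤ 3 * C * (n : ℝ) ^ (-(1 / 2) : ℝ) := by
  have hn0 : (0 : ℝ) < n := by exact_mod_cast hn
  have hC0 := hC.1
  obtain ⟨m, rfl⟩ : ∃ m, n = m + 1 := ⟨n - 1, by omega⟩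
  have h1 : f (m + 1) = S f (m + 1) - S f m := by rw [S_succ]; ring
  rcases Nat.eq_zero_or_pos m with rfl | hm
  · have h2 := hC.2 1 le_rfl
    rw [h1, S_zero, sub_zero]
    simp only [zero_add, Nat.cast_one, Real.one_rpow, mul_one] at h2 ⊢
    linarith
  · have hm0 : (0 : ℝ) < m := by exact_mod_cast hm
    rw [h1]
    refine (norm_sub_le _ _).trans ?_
    have h2 := hC.2 (m + 1) (by omega)
    have h3 := hC.2 m hm
    have h4 : (m : ℝ) ^ (-(1 / 2) : ℝ) ≤ 2 * ((m + 1 : ℕ) : ℝ) ^ (-(1 / 2) : ℝ) := by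
      have e1 : ((m + 1 : ℕ) : ℝ) ≤ 4 * m := by
        push_cast
        have : (1 : ℝ) ≤ m := by exact_mod_cast hm
        linarith
      have e2 : (4 * (m : ℝ)) ^ (-(1 / 2) : ℝ) ≤ ((m + 1 : ℕ) : ℝ) ^ (-(1 / 2) : ℝ) :=
        Real.rpow_le_rpow_of_nonpos hn0 e1 (by norm_num)
      rw [Real.mul_rpow (by norm_num) hm0.le] at e2
      have e3 : (4 : ℝ) ^ (-(1 / 2) : ℝ) = 1 / 2 := by
        rw [show (4 : ℝ) = 2 ^ (2 : ℝ) by norm_num, ← Real.rpow_mul (by norm_num)]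
        norm_num [Real.rpow_neg_one]
      rw [e3] at e2
      linarith
    nlinarith [h2, h3, h4]

lemma cf_norm_le (f : ℕ → ℂ) (C : ℝ) (hC : Bd f C) (n : ℕ) (hn : n ≠ 0) :
    ‖cf f n‖ ≤ 3 * C * (n : ℝ) ^ ((3 / 2 : ℝ) - 1) := by
  have hn0 : (0 : ℝ) < n := by exact_mod_cast Nat.pos_of_ne_zero hn
  have h := norm_f_le f C hC n (Nat.pos_of_ne_zero hn)
  unfold cf
  rw [norm_mul, Complex.norm_natCast]
  calc (n : ℝ) * ‖f n‖ ≤ n * (3 * C * (n : ℝ) ^ (-(1 / 2) : ℝ)) := by gcongr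
    _ = 3 * C * ((n : ℝ) ^ (1 : ℝ) * (n : ℝ) ^ (-(1 / 2) : ℝ)) := by rw [Real.rpow_one]; ring
    _ = _ := by rw [← Real.rpow_add hn0]; norm_num

lemma cf_LSeriesSummable (f : ℕ → ℂ) (C : ℝ) (hC : Bd f C) (z : ℂ) (hz : 3 / 2 < z.re) :
    LSeriesSummable (cf f) z :=
  LSeriesSummable_of_le_const_mul_rpow hz ⟨3 * C, fun n hn => cf_norm_le f C hC n hn⟩

lemma G_eq_LSeries (f : ℕ → ℂ) (C : ℝ) (hC : Bd f C) (z : ℂ) (hz : 3 / 2 < z.re) :
    G f z = LSeries (cf f) z := by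
  have hs := cf_LSeriesSummable f C hC z hz
  have t1 : Tendsto (fun N : ℕ => ∑ n ∈ range (N + 1), LSeries.term (cf f) z n) atTop
      (𝓝 (LSeries (cf f) z)) := (hs.hasSum.tendsto_sum_nat).comp (tendsto_add_atTop_nat 1)
  have hsum : Summable (fun n => tm f n z) := by
    refine Summable.of_norm_bounded ?_ (fun n => norm_tm_le' f C hC n z (by linarith))
    exact (summable_shift (1 / 2 + z.re) (by linarith)).mul_left _
  have t2 : Tendsto (fun N : ℕ => ∑ n ∈ range N, tm f n z) atTop (𝓝 (G f z)) :=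
    hsum.hasSum.tendsto_sum_nat
  have t3 : Tendsto (fun N : ℕ => S f N * ((N + 1 : ℕ) : ℂ) ^ (1 - z)) atTop (𝓝 0) := by
    rw [tendsto_zero_iff_norm_tendsto_zero]
    have hb : Tendsto (fun N : ℕ => C * ((N : ℝ) ^ (-(1 / 2) : ℝ))) atTop (𝓝 0) := by
      have := (tendsto_rpow_neg_atTop (y := (1 / 2 : ℝ)) (by norm_num)).comp
        tendsto_natCast_atTop_atTop
      simpa using this.const_mul C
    refine squeeze_zero' (Eventually.of_forall fun N => norm_nonneg _) ?_ hb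
    filter_upwards [eventually_ge_atTop 1] with N hN
    rw [norm_mul]
    have h1 := hC.2 N hN
    have h2 : ‖((N + 1 : ℕ) : ℂ) ^ (1 - z)‖ ≤ 1 := by
      rw [Complex.norm_natCast_cpow_of_pos (by omega)]
      refine Real.rpow_le_one_of_one_le_of_nonpos ?_ ?_
      · push_cast; linarith [Nat.cast_nonneg (α := ℝ) N]
      · simp; linarith
    calc ‖S f N‖ * ‖((N + 1 : ℕ) : ℂ) ^ (1 - z)‖ ≤ (C * (N : ℝ) ^ (-(1 / 2) : ℝ)) * 1 :=
          mul_le_mul h1 h2 (norm_nonneg _) ((norm_nonneg _).trans h1)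
      _ = _ := by ring
  have t4 := t2.add t3
  rw [add_zero] at t4
  refine tendsto_nhds_unique t4 (t1.congr fun N => ?_)
  rw [← abel]
  rw [Finset.sum_range_succ', LSeries.term_zero, add_zero]
  rw [sum_Icc_shift]
  refine Finset.sum_congr rfl fun n _ => ?_
  have hn0 : ((n + 1 : ℕ) : ℂ) ≠ 0 := by exact_mod_cast Nat.succ_ne_zero n
  rw [LSeries.term_of_ne_zero (Nat.succ_ne_zero n), cf, Complex.cpow_sub _ _ hn0, Complex.cpow_one]
  ring

end Pool.Agent.H280R3.MO
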