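import Mathlib

/-!
# Nonnegativity of `1 * 1 * g * conj g` on rough numbers
-/

set_option autoImplicit false

namespace Pool.Agent.H280R3.MO

open Finset Complex ArithmeticFunction
open scoped ComplexOrder

/-- a completely multiplicative function as an arithmetic function -/
def ar (u : ℕ →*₀ ℂ) : ArithmeticFunction ℂ := ⟨u, map_zero u⟩

@[simp] lemma ar_apply (u : ℕ →*₀ ℂ) (n : ℕ) : ar u n = u n := rfl

/-- multiplication by `log` -/
noncomputable def D (a : ArithmeticFunction ℂ) : ArithmeticFunction ℂ :=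
  ⟨fun n => (Real.log n : ℂ) * a n, by simp⟩

lemma D_apply (a : ArithmeticFunction ℂ) (n : ℕ) : D a n = (Real.log n : ℂ) * a n := rfl

/-- `Λ u` -/
noncomputable def L (u : ℕ →*₀ ℂ) : ArithmeticFunction ℂ :=
  ⟨fun n => (vonMangoldt n : ℂ) * u n, by simp⟩

lemma L_apply (u : ℕ →*₀ ℂ) (n : ℕ) : L u n = (vonMangoldt n : ℂ) * u n := rfl

lemma D_mul (a b : ArithmeticFunction ℂ) : D (a * b) = D a * b + a * D b := by
  ext n
  rw [D_apply, ArithmeticFunction.add_apply, mul_apply, mul_apply, mul_apply, ← Finset.sum_add_distrib,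
    Finset.mul_sum]
  refine Finset.sum_congr rfl fun x hx => ?_
  obtain ⟨h1, h2⟩ := Nat.mem_divisorsAntidiagonal.1 hx
  have hx1 : (x.1 : ℝ) ≠ 0 := by
    intro h
    have : x.1 = 0 := by exact_mod_cast h
    rw [this, zero_mul] at h1
    exact h2 h1.symm
  have hx2 : (x.2 : ℝ) ≠ 0 := by
    intro h
    have : x.2 = 0 := by exact_mod_cast h
    rw [this, mul_zero] at h1
    exact h2 h1.symm
  have h3 : Real.log n = Real.log x.1 + Real.log x.2 := by
    rw [← Real.log_mul hx1 hx2]
    congr 1
    exact_mod_cast h1.symm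
  rw [D_apply, D_apply, h3]
  push_cast
  ring

lemma D_ar (u : ℕ →*₀ ℂ) : D (ar u) = ar u * L u := by
  ext n
  rw [D_apply, mul_apply]
  rcases Nat.eq_zero_or_pos n with rfl | hn
  · simp
  have h1 : ∀ x ∈ n.divisorsAntidiagonal, (ar u) x.1 * (L u) x.2 = u n * ((vonMangoldt x.2 : ℝ) : ℂ) := by
    intro x hx
    obtain ⟨h1, h2⟩ := Nat.mem_divisorsAntidiagonal.1 hx
    rw [ar_apply, L_apply, ← h1, map_mul]
    ring
  rw [Finset.sum_congr rfl h1, ← Finset.mul_sum]
  have h2 : ∑ x ∈ n.divisorsAntidiagonal, ((vonMangoldt x.2 : ℝ) : ℂ) = (Real.log n : ℂ) := by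
    rw [← vonMangoldt_sum (n := n)]
    push_cast
    exact Nat.sum_divisorsAntidiagonal' (f := fun _ b => ((vonMangoldt b : ℝ) : ℂ)) (n := n)
  rw [h2, ar_apply]
  ring

/-- `u * v * w * x` -/
noncomputable def cv (u v w x : ℕ →*₀ ℂ) : ArithmeticFunction ℂ := (ar u * ar v) * (ar w * ar x)

lemma D_cv (u v w x : ℕ →*₀ ℂ) : D (cv u v w x) = cv u v w x * (L u + L v + L w + L x) := by
  unfold cv
  rw [D_mul, D_mul, D_mul, D_ar, D_ar, D_ar, D_ar]
  ring

lemma cv_nonneg (u v w x : ℕ →*₀ ℂ)
    (h : ∀ n : ℕ, 0 ≤ (vonMangoldt n : ℂ) * (u n + v n + w n + x n)) (n : ℕ) : 0 ≤ cv u v w x n := by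
  induction n using Nat.strong_induction_on with
  | _ n ih =>
    rcases Nat.eq_zero_or_pos n with rfl | hn
    · simp
    rcases Nat.lt_or_ge 1 n with h1 | h1
    · have hlog : 0 < Real.log n := Real.log_pos (by exact_mod_cast h1)
      have key : 0 ≤ (Real.log n : ℂ) * cv u v w x n := by
        rw [← D_apply, D_cv, mul_apply]
        refine Finset.sum_nonneg fun y hy => ?_
        obtain ⟨h3, h4⟩ := Nat.mem_divisorsAntidiagonal.1 hy
        have e : (L u + L v + L w + L x) y.2 = (vonMangoldt y.2 : ℂ) * (u y.2 + v y.2 + w y.2 + x y.2) := by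
          simp only [ArithmeticFunction.add_apply, L_apply]
          ring
        rcases Nat.lt_or_ge 1 y.2 with h5 | h5
        · refine mul_nonneg (ih y.1 ?_) (e ▸ h y.2)
          have : 0 < y.1 := by
            rcases Nat.eq_zero_or_pos y.1 with h6 | h6
            · rw [h6, zero_mul] at h3
              omega
            · exact h6
          calc y.1 = y.1 * 1 := (mul_one _).symm
            _ < y.1 * y.2 := Nat.mul_lt_mul_of_pos_left h5 this
            _ = n := h3
        · have h6 : (vonMangoldt y.2 : ℝ) = 0 := by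
            interval_cases hh : y.2
            · simp
            · simp
          rw [e, h6]
          simp
      rw [Complex.nonneg_iff] at key ⊢
      obtain ⟨k1, k2⟩ := key
      rw [Complex.re_ofReal_mul] at k1
      rw [Complex.im_ofReal_mul] at k2
      refine ⟨nonneg_of_mul_nonneg_right k1 hlog, ?_⟩
      rcases mul_eq_zero.1 k2.symm with h | h
      · exact absurd h hlog.ne'
      · exact h.symm
    · have : n = 1 := by omega
      subst this
      unfold cv
      simp [mul_apply]

lemma cv_one (u v w x : ℕ →*₀ ℂ) : cv u v w x 1 = 1 := by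
  unfold cv
  simp [mul_apply]

end Pool.Agent.H280R3.MO
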