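import Pool.Agent.H280R3.MO.A
import Pool.Agent.H280R3.MO.B

/-!
# Removing small primes from a completely multiplicative function
-/

set_option autoImplicit false

namespace Pool.Agent.H280R3.MO

open Finset Complex

/-- all prime factors of `n` are at least `N` -/
def Rg (N n : ℕ) : Prop := ∀ p : ℕ, p.Prime → p ∣ n → N ≤ p

noncomputable instance (N n : ℕ) : Decidable (Rg N n) := Classical.dec _

lemma Rg_one (N : ℕ) : Rg N 1 := fun _ hp h => absurd (Nat.dvd_one.1 h) hp.one_lt.ne'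

lemma Rg_mul (N m n : ℕ) : Rg N (m * n) ↔ Rg N m ∧ Rg N n := by
  constructor
  · intro h
    exact ⟨fun p hp hd => h p hp (hd.mul_right n), fun p hp hd => h p hp (hd.mul_left m)⟩
  · rintro ⟨h1, h2⟩ p hp hd
    rcases (hp.dvd_mul).1 hd with h | h
    · exact h1 p hp h
    · exact h2 p hp h

/-- remove the primes below `N` -/
noncomputable def cut (N : ℕ) (u : ℕ →*₀ ℂ) : ℕ →*₀ ℂ where
  toFun n := if Rg N n then u n else 0
  map_zero' := by simp
  map_one' := by simp [Rg_one]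
  map_mul' m n := by
    by_cases h1 : Rg N m <;> by_cases h2 : Rg N n <;> simp [Rg_mul, h1, h2]

lemma cut_of (N : ℕ) (u : ℕ →*₀ ℂ) (n : ℕ) (h : Rg N n) : cut N u n = u n := by
  show (if Rg N n then u n else 0) = _
  rw [if_pos h]

lemma cut_not (N : ℕ) (u : ℕ →*₀ ℂ) (n : ℕ) (h : ¬ Rg N n) : cut N u n = 0 := by
  show (if Rg N n then u n else 0) = _
  rw [if_neg h]

lemma cut_norm_le (N : ℕ) (u : ℕ →*₀ ℂ) (n : ℕ) : ‖cut N u n‖ ≤ ‖u n‖ := by
  by_cases h : Rg N n
  · rw [cut_of _ _ _ h]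
  · rw [cut_not _ _ _ h]
    simp

lemma Rg_zero' (n : ℕ) : Rg 0 n := fun _ _ _ => Nat.zero_le _

lemma cut_zero (u : ℕ →*₀ ℂ) : cut 0 u = u := by
  ext n
  exact cut_of _ _ _ (Rg_zero' n)

lemma Rg_succ_iff (P n : ℕ) (hP : P.Prime) : Rg (P + 1) n ↔ Rg P n ∧ ¬ P ∣ n := by
  constructor
  · intro h
    refine ⟨fun p hp hd => (Nat.le_succ _).trans (h p hp hd), fun hd => ?_⟩
    have := h P hP hd
    omega
  · rintro ⟨h1, h2⟩ p hp hd
    have h3 := h1 p hp hd
    rcases Nat.lt_or_ge P p with h4 | h4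
    · exact h4
    · have : p = P := le_antisymm h4 h3
      subst this
      exact absurd hd h2

lemma Rg_succ_iff' (P n : ℕ) (hP : ¬ P.Prime) : Rg (P + 1) n ↔ Rg P n := by
  constructor
  · intro h p hp hd
    exact (Nat.le_succ _).trans (h p hp hd)
  · intro h p hp hd
    have h3 := h p hp hd
    rcases Nat.lt_or_ge P p with h4 | h4
    · exact h4
    · have : p = P := le_antisymm h4 h3
      subst this
      exact absurd hp hP

lemma cut_succ (P : ℕ) (hP : P.Prime) (u : ℕ →*₀ ℂ) (n : ℕ) :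
    cut (P + 1) u n = cut P u n - (if P ∣ n then cut P u n else 0) := by
  by_cases h1 : P ∣ n
  · rw [if_pos h1, cut_not _ _ _ (fun h => ((Rg_succ_iff P n hP).1 h).2 h1)]
    ring
  · rw [if_neg h1]
    by_cases h2 : Rg P n
    · rw [cut_of _ _ _ h2, cut_of _ _ _ ((Rg_succ_iff P n hP).2 ⟨h2, h1⟩)]
      ring
    · rw [cut_not _ _ _ h2, cut_not _ _ _ (fun h => h2 ((Rg_succ_iff P n hP).1 h).1)]
      ring

lemma cut_succ' (P : ℕ) (hP : ¬ P.Prime) (u : ℕ →*₀ ℂ) : cut (P + 1) u = cut P u := by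
  ext n
  by_cases h2 : Rg P n
  · rw [cut_of _ _ _ h2, cut_of _ _ _ ((Rg_succ_iff' P n hP).2 h2)]
  · rw [cut_not _ _ _ h2, cut_not _ _ _ (fun h => h2 ((Rg_succ_iff' P n hP).1 h))]

lemma Rg_prime (N p : ℕ) (hp : p.Prime) : Rg N p ↔ N ≤ p := by
  constructor
  · intro h
    exact h p hp dvd_rfl
  · intro h q hq hd
    rw [(Nat.prime_dvd_prime_iff_eq hq hp).1 hd]
    exact h

lemma cut_self (P : ℕ) (hP : P.Prime) (u : ℕ →*₀ ℂ) : cut P u P = u P :=
  cut_of _ _ _ ((Rg_prime P P hP).2 le_rfl)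

lemma term_mul (u : ℕ →*₀ ℂ) (z : ℂ) (m n : ℕ) :
    LSeries.term u z (m * n) = LSeries.term u z m * LSeries.term u z n := by
  rcases Nat.eq_zero_or_pos m with rfl | hm
  · simp
  rcases Nat.eq_zero_or_pos n with rfl | hn
  · simp
  rw [LSeries.term_of_ne_zero (by positivity), LSeries.term_of_ne_zero hm.ne',
    LSeries.term_of_ne_zero hn.ne', map_mul, Nat.cast_mul, Complex.natCast_mul_natCast_cpow]
  field_simp

lemma cut_LSeriesSummable (N : ℕ) (u : ℕ →*₀ ℂ) (z : ℂ) (hs : LSeriesSummable u z) :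
    LSeriesSummable (cut N u) z := by
  refine Summable.of_norm_bounded hs.norm (fun n => ?_)
  exact LSeries.norm_term_le z (cut_norm_le N u n)

lemma LSeries_cut_succ (P : ℕ) (hP : P.Prime) (u : ℕ →*₀ ℂ) (z : ℂ) (hs : LSeriesSummable u z) :
    LSeries (cut (P + 1) u) z = (1 - u P * (P : ℂ) ^ (-z)) * LSeries (cut P u) z := by
  have hs' := cut_LSeriesSummable P u z hs
  have hP0 : P ≠ 0 := hP.ne_zero
  have e1 : ∀ n, LSeries.term (cut (P + 1) u) z n =
      LSeries.term (cut P u) z n - (if P ∣ n then LSeries.term (cut P u) z n else 0) := by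
    intro n
    rcases Nat.eq_zero_or_pos n with rfl | hn
    · simp
    rw [LSeries.term_of_ne_zero hn.ne', LSeries.term_of_ne_zero hn.ne', cut_succ P hP]
    split_ifs
    · ring
    · ring
  have hinj : Function.Injective (fun m : ℕ => P * m) := fun a b h => by
    exact Nat.eq_of_mul_eq_mul_left hP.pos h
  have hsupp : Function.support (fun n => if P ∣ n then LSeries.term (cut P u) z n else 0) ⊆
      Set.range (fun m : ℕ => P * m) := by
    intro n hn
    by_contra h
    apply hn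
    show (if P ∣ n then LSeries.term (cut P u) z n else 0) = 0
    rw [if_neg]
    rintro ⟨m, rfl⟩
    exact h ⟨m, rfl⟩
  have e2 : ∑' n, (if P ∣ n then LSeries.term (cut P u) z n else 0) =
      (u P * (P : ℂ) ^ (-z)) * LSeries (cut P u) z := by
    rw [← hinj.tsum_eq hsupp]
    have e3 : ∀ m : ℕ, (if P ∣ P * m then LSeries.term (cut P u) z (P * m) else 0) =
        (u P * (P : ℂ) ^ (-z)) * LSeries.term (cut P u) z m := by
      intro m
      rw [if_pos (dvd_mul_right P m), term_mul, LSeries.term_of_ne_zero hP0, cut_self P hP,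
        Complex.cpow_neg, div_eq_mul_inv]
    simp_rw [e3]
    rw [tsum_mul_left]
    rfl
  have hs2 : Summable (fun n => if P ∣ n then LSeries.term (cut P u) z n else 0) := by
    refine Summable.of_norm_bounded hs'.norm (fun n => ?_)
    split_ifs
    · exact le_rfl
    · simp
  unfold LSeries at e2 ⊢
  simp_rw [e1]
  rw [hs'.tsum_sub hs2, e2]
  ring

lemma LSeries_cut (N : ℕ) (u : ℕ →*₀ ℂ) (z : ℂ) (hs : LSeriesSummable u z) :
    LSeries (cut N u) z = (∏ p ∈ N.primesBelow, (1 - u p * (p : ℂ) ^ (-z))) * LSeries u z := by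
  induction N with
  | zero => simp [cut_zero]
  | succ N ih =>
    rw [Nat.primesBelow_succ]
    split_ifs with hN
    · rw [Finset.prod_insert (by simp [Nat.primesBelow]), LSeries_cut_succ N hN u z hs, ih]
      ring
    · rw [cut_succ' N hN, ih]

/-- the constant function one -/
noncomputable def u1 : ℕ →*₀ ℂ where
  toFun n := if n = 0 then 0 else 1
  map_zero' := by simp
  map_one' := by simp
  map_mul' m n := by
    by_cases h1 : m = 0 <;> by_cases h2 : n = 0 <;> simp [h1, h2]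

lemma u1_apply (n : ℕ) (hn : n ≠ 0) : u1 n = 1 := by
  show (if n = 0 then (0 : ℂ) else 1) = 1
  rw [if_neg hn]

lemma u1_LSeriesSummable (z : ℂ) (hz : 1 < z.re) : LSeriesSummable u1 z := by
  refine (LSeriesSummable_congr z (f := (1 : ℕ → ℂ)) ?_).1 (LSeriesSummable_one_iff.2 hz)
  intro n hn
  rw [u1_apply n hn]
  rfl

lemma LSeries_u1 (z : ℂ) (hz : 1 < z.re) : LSeries u1 z = riemannZeta z := by
  rw [← LSeries_one_eq_riemannZeta hz]
  refine LSeries_congr ?_ z
  intro n hn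
  rw [u1_apply n hn]
  rfl

/-- `n f n` -/
noncomputable def gh (f : ℕ →*₀ ℂ) : ℕ →*₀ ℂ where
  toFun n := n * f n
  map_zero' := by simp
  map_one' := by simp
  map_mul' m n := by
    simp only [Nat.cast_mul, map_mul]
    ring

lemma gh_apply (f : ℕ →*₀ ℂ) (n : ℕ) : gh f n = n * f n := rfl

/-- complex conjugate -/
noncomputable def bar (f : ℕ →*₀ ℂ) : ℕ →*₀ ℂ where
  toFun n := (starRingEnd ℂ) (f n)
  map_zero' := by simp
  map_one' := by simp
  map_mul' m n := by simp

lemma bar_apply (f : ℕ →*₀ ℂ) (n : ℕ) : bar f n = (starRingEnd ℂ) (f n) := rfl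

lemma S_bar (f : ℕ →*₀ ℂ) (N : ℕ) : S (bar f) N = (starRingEnd ℂ) (S f N) := by
  unfold S
  rw [map_sum]
  rfl

lemma Bd_bar (f : ℕ →*₀ ℂ) (C : ℝ) (h : Bd f C) : Bd (bar f) C := by
  refine ⟨h.1, fun n hn => ?_⟩
  rw [S_bar, RCLike.norm_conj]
  exact h.2 n hn

end Pool.Agent.H280R3.MO
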