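import Pool.Agent.H280R3.MO.C

/-!
# The positivity argument
-/

set_option autoImplicit false

namespace Pool.Agent.H280R3.MO

open Finset Complex Filter Topology ArithmeticFunction
open scoped ComplexOrder

/-- `ζ G` with the removable singularity removed -/
noncomputable def Zf (f : ℕ → ℂ) : ℂ → ℂ :=
  Function.update (fun z => riemannZeta z * G f z) 1 (deriv (G f) 1)

lemma isOpen_half : IsOpen {z : ℂ | 1 / 2 < z.re} := isOpen_lt continuous_const Complex.continuous_re

lemma G_differentiableAt (f : ℕ → ℂ) (C : ℝ) (hC : Bd f C) (z : ℂ) (hz : 1 / 2 < z.re) :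
    DifferentiableAt ℂ (G f) z :=
  (G_differentiableOn f C hC).differentiableAt (isOpen_half.mem_nhds hz)

lemma Zf_of_ne (f : ℕ → ℂ) {z : ℂ} (hz : z ≠ 1) : Zf f z = riemannZeta z * G f z := by
  unfold Zf
  rw [Function.update_of_ne hz]

lemma Zf_differentiableAt_of_ne (f : ℕ → ℂ) (C : ℝ) (hC : Bd f C) (z : ℂ) (hz : 1 / 2 < z.re)
    (hz1 : z ≠ 1) : DifferentiableAt ℂ (Zf f) z := by
  apply DifferentiableAt.congr_of_eventuallyEq
  · exact (differentiableAt_riemannZeta hz1).mul (G_differentiableAt f C hC z hz)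
  · filter_upwards [eventually_ne_nhds hz1] with t ht using Function.update_of_ne ht ..

lemma Zf_differentiableAt (f : ℕ → ℂ) (C : ℝ) (hC : Bd f C) (z : ℂ) (hz : 1 / 2 < z.re) :
    DifferentiableAt ℂ (Zf f) z := by
  rcases ne_or_eq z 1 with h | rfl
  · exact Zf_differentiableAt_of_ne f C hC z hz h
  refine (analyticAt_of_differentiable_on_punctured_nhds_of_continuousAt ?_ ?_).differentiableAt
  · filter_upwards [self_mem_nhdsWithin, mem_nhdsWithin_of_mem_nhds (isOpen_half.mem_nhds hz)]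
      with t ht ht2
    exact Zf_differentiableAt_of_ne f C hC t ht2 ht
  let A := Function.update (fun s ↦ (s - 1) * riemannZeta s) 1 1
  let B := Function.update (fun s ↦ (G f s - G f 1) / (s - 1)) 1 (deriv (G f) 1)
  have : Zf f = A * B := by
    ext1 t
    rcases eq_or_ne t 1 with rfl | ht
    · simp only [Zf, A, B, Pi.mul_apply, one_mul, Function.update_self]
    · simp only [Zf, A, B, Function.update_of_ne ht, mul_comm _ (riemannZeta _), G_one, sub_zero,
        Pi.mul_apply, mul_assoc, mul_div_cancel₀ _ (sub_ne_zero.mpr ht)]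
  rw [this]
  apply ContinuousAt.mul
  · simpa only [A, continuousAt_update_same] using riemannZeta_residue_one
  · exact (G_differentiableAt f C hC 1 (by norm_num)).hasDerivAt.continuousAt_div

/-- the finite product -/
noncomputable def PN (f : ℕ →*₀ ℂ) (N : ℕ) (z : ℂ) : ℂ :=
  ∏ p ∈ N.primesBelow, ((1 - (p : ℂ) ^ (-z)) * (1 - (p : ℂ) ^ (-z)) *
    ((1 - gh f p * (p : ℂ) ^ (-z)) * (1 - gh (bar f) p * (p : ℂ) ^ (-z))))

lemma PN_differentiable (f : ℕ →*₀ ℂ) (N : ℕ) : Differentiable ℂ (PN f N) := by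
  have hd : ∀ (c : ℂ) (p : ℕ), p ∈ N.primesBelow →
      Differentiable ℂ (fun z : ℂ => 1 - c * (p : ℂ) ^ (-z)) := by
    intro c p hp z
    have hp0 : (p : ℂ) ≠ 0 := by exact_mod_cast (Nat.prime_of_mem_primesBelow hp).ne_zero
    exact (differentiableAt_const _).sub
      ((differentiableAt_const _).mul (differentiableAt_id.neg.const_cpow (Or.inl hp0)))
  have hd' : ∀ (p : ℕ), p ∈ N.primesBelow →
      Differentiable ℂ (fun z : ℂ => 1 - (p : ℂ) ^ (-z)) := by
    intro p hp
    simpa using hd 1 p hp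
  intro z
  unfold PN
  refine DifferentiableAt.fun_finsetProd (fun p hp => ?_)
  exact ((hd' p hp z).mul (hd' p hp z)).mul ((hd _ p hp z).mul (hd _ p hp z))

/-- the function to which Landau's lemma is applied -/
noncomputable def HN (f : ℕ →*₀ ℂ) (N : ℕ) (z : ℂ) : ℂ :=
  (Zf f z * Zf (bar f) z) * PN f N z

lemma HN_differentiableOn (f : ℕ →*₀ ℂ) (C : ℝ) (hC : Bd f C) (N : ℕ) :
    DifferentiableOn ℂ (HN f N) {z : ℂ | 1 / 2 < z.re} := by
  intro z hz
  exact (((Zf_differentiableAt f C hC z hz).mul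
    (Zf_differentiableAt (bar f) C (Bd_bar f C hC) z hz)).mul
    (PN_differentiable f N z)).differentiableWithinAt

/-- the coefficients -/
noncomputable def cN (f : ℕ →*₀ ℂ) (N : ℕ) : ArithmeticFunction ℂ :=
  cv (cut N u1) (cut N u1) (cut N (gh f)) (cut N (gh (bar f)))

lemma gh_eq (f : ℕ →*₀ ℂ) : ((gh f : ℕ →*₀ ℂ) : ℕ → ℂ) = cf f := rfl

lemma coe_ar (u : ℕ →*₀ ℂ) : ((ar u : ArithmeticFunction ℂ) : ℕ → ℂ) = u := rfl

lemma cN_LSeriesSummable (f : ℕ →*₀ ℂ) (C : ℝ) (hC : Bd f C) (N : ℕ) (z : ℂ) (hz : 3 / 2 < z.re) :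
    LSeriesSummable (cN f N) z := by
  have s1 : LSeriesSummable (ar (cut N u1)) z := by
    rw [coe_ar]
    exact cut_LSeriesSummable N u1 z (u1_LSeriesSummable z (by linarith))
  have s2 : LSeriesSummable (ar (cut N (gh f))) z := by
    rw [coe_ar]
    exact cut_LSeriesSummable N _ z (by rw [gh_eq]; exact cf_LSeriesSummable f C hC z hz)
  have s3 : LSeriesSummable (ar (cut N (gh (bar f)))) z := by
    rw [coe_ar]
    exact cut_LSeriesSummable N _ z
      (by rw [gh_eq]; exact cf_LSeriesSummable (bar f) C (Bd_bar f C hC) z hz)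
  unfold cN cv
  exact ArithmeticFunction.LSeriesSummable_mul (ArithmeticFunction.LSeriesSummable_mul s1 s1)
    (ArithmeticFunction.LSeriesSummable_mul s2 s3)

lemma HN_eq_LSeries (f : ℕ →*₀ ℂ) (C : ℝ) (hC : Bd f C) (N : ℕ) (z : ℂ) (hz : 3 / 2 < z.re) :
    HN f N z = LSeries (cN f N) z := by
  have h1 : LSeriesSummable u1 z := u1_LSeriesSummable z (by linarith)
  have h2 : LSeriesSummable (gh f) z := by rw [gh_eq]; exact cf_LSeriesSummable f C hC z hz
  have h3 : LSeriesSummable (gh (bar f)) z := by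
    rw [gh_eq]; exact cf_LSeriesSummable (bar f) C (Bd_bar f C hC) z hz
  have s1 : LSeriesSummable (ar (cut N u1)) z := by
    rw [coe_ar]
    exact cut_LSeriesSummable N u1 z h1
  have s2 : LSeriesSummable (ar (cut N (gh f))) z := by
    rw [coe_ar]
    exact cut_LSeriesSummable N _ z h2
  have s3 : LSeriesSummable (ar (cut N (gh (bar f)))) z := by
    rw [coe_ar]
    exact cut_LSeriesSummable N _ z h3
  have hz1 : z ≠ 1 := by
    rintro rfl
    norm_num at hz
  unfold cN cv
  rw [ArithmeticFunction.LSeries_mul' (ArithmeticFunction.LSeriesSummable_mul s1 s1)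
    (ArithmeticFunction.LSeriesSummable_mul s2 s3), ArithmeticFunction.LSeries_mul' s1 s1,
    ArithmeticFunction.LSeries_mul' s2 s3, coe_ar, coe_ar, coe_ar, LSeries_cut N u1 z h1,
    LSeries_cut N (gh f) z h2, LSeries_cut N (gh (bar f)) z h3, LSeries_u1 z (by linarith)]
  unfold HN PN
  rw [Zf_of_ne _ hz1, Zf_of_ne _ hz1, G_eq_LSeries f C hC z hz,
    G_eq_LSeries (bar f) C (Bd_bar f C hC) z hz, gh_eq, gh_eq]
  simp only [Finset.prod_mul_distrib]
  have e : ∏ p ∈ N.primesBelow, (1 - u1 p * (p : ℂ) ^ (-z)) =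
      ∏ p ∈ N.primesBelow, (1 - (p : ℂ) ^ (-z)) := by
    refine Finset.prod_congr rfl fun p hp => ?_
    rw [u1_apply p (Nat.prime_of_mem_primesBelow hp).ne_zero, one_mul]
  rw [e]
  ring

/-- the region -/
def Reg (f : ℕ → ℂ) : Prop :=
  ∀ p : ℕ, p.Prime → (‖f p‖ ≤ 1 / p ∨ ∃ r : ℝ, 0 ≤ r ∧ f p = r)

lemma gh_pow_re (f : ℕ →*₀ ℂ) (hf : Reg f) (p : ℕ) (hp : p.Prime) (k : ℕ) :
    -1 ≤ ((gh f p) ^ k).re := by
  have hp0 : (0 : ℝ) < p := by exact_mod_cast hp.pos
  rcases hf p hp with h | ⟨r, hr, h⟩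
  · have h1 : ‖gh f p‖ ≤ 1 := by
      rw [gh_apply, norm_mul, Complex.norm_natCast]
      calc (p : ℝ) * ‖f p‖ ≤ p * (1 / p) := by gcongr
        _ = 1 := by field_simp
    have h2 : ‖(gh f p) ^ k‖ ≤ 1 := by
      rw [norm_pow]
      exact pow_le_one₀ (norm_nonneg _) h1
    have h3 := (abs_le.1 (Complex.abs_re_le_norm ((gh f p) ^ k))).1
    linarith
  · have h1 : gh f p = ((p * r : ℝ) : ℂ) := by
      rw [gh_apply, h]
      push_cast
      ring
    rw [h1, ← Complex.ofReal_pow, Complex.ofReal_re]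
    have : 0 ≤ ((p : ℝ) * r) ^ k := by positivity
    linarith

lemma cN_nonneg (f : ℕ →*₀ ℂ) (hf : Reg f) (N n : ℕ) : 0 ≤ cN f N n := by
  refine cv_nonneg _ _ _ _ (fun n => ?_) n
  by_cases hpp : IsPrimePow n
  · have hL : (0 : ℂ) ≤ ((vonMangoldt n : ℝ) : ℂ) := by
      exact_mod_cast (vonMangoldt_nonneg : 0 ≤ vonMangoldt n)
    refine mul_nonneg hL ?_
    by_cases hR : Rg N n
    · rw [cut_of _ _ _ hR, cut_of _ _ _ hR, cut_of _ _ _ hR, u1_apply n hpp.ne_zero]
      obtain ⟨p, k, hp, hk, rfl⟩ := hpp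
      have hp' := hp.nat_prime
      have e : gh (bar f) p = (starRingEnd ℂ) (gh f p) := by
        rw [gh_apply, gh_apply, bar_apply]
        simp
      rw [map_pow (gh f), map_pow (gh (bar f)), e, ← map_pow (starRingEnd ℂ)]
      have h1 := gh_pow_re f hf p hp' k
      have e2 : (1 : ℂ) + 1 + (gh f p) ^ k + (starRingEnd ℂ) ((gh f p) ^ k) =
          ((2 + 2 * ((gh f p) ^ k).re : ℝ) : ℂ) := by
        rw [add_assoc, Complex.add_conj]
        push_cast
        ring
      rw [e2]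
      exact_mod_cast (by linarith : (0 : ℝ) ≤ 2 + 2 * ((gh f p) ^ k).re)
    · rw [cut_not _ _ _ hR, cut_not _ _ _ hR, cut_not _ _ _ hR]
      simp
  · rw [vonMangoldt_eq_zero_iff.2 hpp]
    simp

lemma landau (f : ℕ →*₀ ℂ) (C : ℝ) (hC : Bd f C) (hf : Reg f) (N : ℕ) (σ : ℝ) (h1 : 1 / 2 < σ)
    (h2 : σ ≤ 2) : 1 ≤ HN f N σ := by
  set a : ℕ → ℂ := fun n => if n = 1 then 0 else cN f N n with ha
  have ha0 : 0 ≤ a := by
    intro n
    show (0 : ℂ) ≤ (if n = 1 then 0 else cN f N n)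
    split_ifs
    · exact le_rfl
    · exact cN_nonneg f hf N n
  have hsum : ∀ z : ℂ, 3 / 2 < z.re → LSeriesSummable a z := by
    intro z hz
    refine Summable.of_norm_bounded (cN_LSeriesSummable f C hC N z hz).norm (fun n => ?_)
    refine LSeries.norm_term_le z ?_
    show ‖(if n = 1 then 0 else cN f N n)‖ ≤ _
    split_ifs
    · simp
    · exact le_rfl
  have hLa : ∀ z : ℂ, 3 / 2 < z.re → LSeries a z = HN f N z - 1 := by
    intro z hz
    rw [HN_eq_LSeries f C hC N z hz]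
    have h3 := (cN_LSeriesSummable f C hC N z hz).tsum_eq_add_tsum_ite 1
    unfold LSeries
    rw [h3]
    rw [LSeries.term_of_ne_zero one_ne_zero]
    have e1 : cN f N 1 = 1 := cv_one _ _ _ _
    rw [e1]
    simp only [Nat.cast_one, one_cpow, div_one, add_sub_cancel_left]
    refine tsum_congr fun n => ?_
    rcases Nat.eq_zero_or_pos n with rfl | hn
    · simp
    rw [LSeries.term_of_ne_zero hn.ne']
    by_cases h : n = 1
    · simp [ha, h]
    · simp only [ha, h, if_false]
      rw [LSeries.term_of_ne_zero hn.ne']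
  set φ : ℂ → ℂ := fun w => HN f N (-w) - 1 with hφ
  have hball : ∀ w ∈ Metric.ball (-2 : ℂ) (3 / 2), -w ∈ {z : ℂ | 1 / 2 < z.re} := by
    intro w hw
    rw [Metric.mem_ball, Complex.dist_eq] at hw
    have h3 := (abs_le.1 ((Complex.abs_re_le_norm (w - (-2))))).2
    have h4 : (w - (-2)).re = w.re + 2 := by simp
    show 1 / 2 < (-w).re
    rw [Complex.neg_re]
    rw [h4] at h3
    linarith
  have hφd : DifferentiableOn ℂ φ (Metric.ball (-2 : ℂ) (3 / 2)) := by
    refine DifferentiableOn.sub ?_ (differentiableOn_const _)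
    exact (HN_differentiableOn f C hC N).comp (differentiableOn_id.neg) hball
  have hder : ∀ n, 0 ≤ iteratedDeriv n φ (-2 : ℂ) := by
    intro n
    have e1 : φ = fun w => (fun z => HN f N z - 1) (-w) := rfl
    rw [e1, iteratedDeriv_comp_neg n (fun z => HN f N z - 1) (-2), neg_neg]
    have hopen : IsOpen {z : ℂ | 3 / 2 < z.re} := isOpen_lt continuous_const Complex.continuous_re
    have heq : Set.EqOn (fun z => HN f N z - 1) (LSeries a) {z : ℂ | 3 / 2 < z.re} :=
      fun z hz => (hLa z hz).symm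
    have h2mem : (2 : ℂ) ∈ {z : ℂ | 3 / 2 < z.re} := by
      show 3 / 2 < (2 : ℂ).re
      norm_num
    rw [heq.iteratedDeriv_of_isOpen hopen n h2mem, smul_eq_mul]
    have habs : LSeries.abscissaOfAbsConv a < ((2 : ℝ) : EReal) := by
      refine lt_of_le_of_lt (LSeries.abscissaOfAbsConv_le_of_forall_lt_LSeriesSummable (x := 3 / 2)
        (fun y hy => hsum y (by simpa using hy))) ?_
      exact_mod_cast (by norm_num : (3 / 2 : ℝ) < 2)
    have := LSeries.iteratedDeriv_alternating ha0 habs n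
    simpa using this
  have hres := hφd.nonneg_of_iteratedDeriv_nonneg hder (z := (-(σ : ℂ))) ?_ ?_
  · simp only [hφ, neg_neg] at hres
    exact sub_nonneg.1 hres
  · rw [Complex.le_def]
    constructor
    · simp; linarith
    · simp
  · rw [Metric.mem_ball, Complex.dist_eq]
    have : -(σ : ℂ) - (-2) = ((2 - σ : ℝ) : ℂ) := by push_cast; ring
    rw [this, Complex.norm_real, Real.norm_of_nonneg (by linarith)]
    linarith

end Pool.Agent.H280R3.MO
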