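import Pool.Agent.H280R3.MO.D

/-!
# The contradiction
-/

set_option autoImplicit false

namespace Pool.Agent.H280R3.MO

open Finset Complex Filter Topology Asymptotics
open scoped ComplexOrder

lemma f_prime_le (f : ℕ →*₀ ℂ) (C : ℝ) (hC : Bd f C) (p : ℕ) (hp : p.Prime) :
    ‖f p‖ ≤ (p : ℝ) ^ (-(1 / 2) : ℝ) := by
  have hp0 : (0 : ℝ) < p := by exact_mod_cast hp.pos
  by_contra hcon
  push Not at hcon
  set y : ℝ := ‖f p‖ * (p : ℝ) ^ ((1 / 2) : ℝ) with hy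
  have hy1 : 1 < y := by
    have h1 : (p : ℝ) ^ (-(1 / 2) : ℝ) * (p : ℝ) ^ ((1 / 2) : ℝ) = 1 := by
      rw [← Real.rpow_add hp0]; norm_num
    have h2 := mul_lt_mul_of_pos_right hcon (Real.rpow_pos_of_pos hp0 ((1 / 2) : ℝ))
    rw [h1] at h2
    exact h2
  obtain ⟨k, hk⟩ := ((tendsto_pow_atTop_atTop_of_one_lt hy1).eventually_gt_atTop (3 * C)).exists
  have h2 := norm_f_le f C hC (p ^ k) (Nat.one_le_pow _ _ hp.pos)
  rw [map_pow, norm_pow] at h2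
  have h3 : y ^ k ≤ 3 * C := by
    rw [hy, mul_pow]
    have e1 : (((p ^ k : ℕ) : ℝ)) ^ (-(1 / 2) : ℝ) = ((p : ℝ) ^ (-(1 / 2) : ℝ)) ^ k := by
      push_cast
      rw [← Real.rpow_natCast, ← Real.rpow_natCast, ← Real.rpow_mul hp0.le, ← Real.rpow_mul hp0.le]
      ring_nf
    rw [e1] at h2
    calc ‖f p‖ ^ k * ((p : ℝ) ^ ((1 / 2) : ℝ)) ^ k
        ≤ (3 * C * ((p : ℝ) ^ (-(1 / 2) : ℝ)) ^ k) * ((p : ℝ) ^ ((1 / 2) : ℝ)) ^ k := by gcongr
      _ = 3 * C * ((p : ℝ) ^ (-(1 / 2) : ℝ) * (p : ℝ) ^ ((1 / 2) : ℝ)) ^ k := by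
        rw [mul_pow]; ring
      _ = 3 * C := by
        rw [← Real.rpow_add hp0]
        norm_num
  linarith

lemma factor_le (f : ℕ →*₀ ℂ) (C : ℝ) (hC : Bd f C) (hf : Reg f) (p : ℕ) (hp : p.Prime) (σ : ℝ)
    (h1 : 1 / 2 < σ) :
    ‖1 - gh f p * (((p : ℝ) ^ (-σ) : ℝ) : ℂ)‖ ≤ 1 + (p : ℝ) ^ (-σ) := by
  have hp0 : (0 : ℝ) < p := by exact_mod_cast hp.pos
  have hX : 0 < (p : ℝ) ^ (-σ) := Real.rpow_pos_of_pos hp0 _
  rcases hf p hp with h | ⟨r, hr, h⟩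
  · have h1 : ‖gh f p‖ ≤ 1 := by
      rw [gh_apply, norm_mul, Complex.norm_natCast]
      calc (p : ℝ) * ‖f p‖ ≤ p * (1 / p) := by gcongr
        _ = 1 := by field_simp
    calc ‖1 - gh f p * (((p : ℝ) ^ (-σ) : ℝ) : ℂ)‖
        ≤ ‖(1 : ℂ)‖ + ‖gh f p * (((p : ℝ) ^ (-σ) : ℝ) : ℂ)‖ := norm_sub_le _ _
      _ = 1 + ‖gh f p‖ * (p : ℝ) ^ (-σ) := by
        rw [norm_one, norm_mul, Complex.norm_real, Real.norm_of_nonneg hX.le]
      _ ≤ 1 + 1 * (p : ℝ) ^ (-σ) := by gcongr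
      _ = _ := by ring
  · have h2 := f_prime_le f C hC p hp
    rw [h, Complex.norm_real, Real.norm_of_nonneg hr] at h2
    have h3 : gh f p * (((p : ℝ) ^ (-σ) : ℝ) : ℂ) = ((p * r * (p : ℝ) ^ (-σ) : ℝ) : ℂ) := by
      rw [gh_apply, h]
      push_cast
      ring
    have h4 : (p : ℝ) * r * (p : ℝ) ^ (-σ) ≤ 1 := by
      calc (p : ℝ) * r * (p : ℝ) ^ (-σ) ≤ p * (p : ℝ) ^ (-(1 / 2) : ℝ) * (p : ℝ) ^ (-σ) := by gcongr
        _ = (p : ℝ) ^ (1 : ℝ) * (p : ℝ) ^ (-(1 / 2) : ℝ) * (p : ℝ) ^ (-σ) := by rw [Real.rpow_one]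
        _ = (p : ℝ) ^ (1 / 2 - σ) := by
          rw [← Real.rpow_add hp0, ← Real.rpow_add hp0]
          congr 1
          ring
        _ ≤ 1 := Real.rpow_le_one_of_one_le_of_nonpos (by exact_mod_cast hp.one_le) (by linarith)
    have h5 : 0 ≤ (p : ℝ) * r * (p : ℝ) ^ (-σ) := by positivity
    rw [h3, ← Complex.ofReal_one, ← Complex.ofReal_sub, Complex.norm_real,
      Real.norm_of_nonneg (by linarith)]
    linarith

lemma Reg_bar (f : ℕ →*₀ ℂ) (hf : Reg f) : Reg (bar f) := by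
  intro p hp
  rcases hf p hp with h | ⟨r, hr, h⟩
  · left
    rw [bar_apply, RCLike.norm_conj]
    exact h
  · right
    refine ⟨r, hr, ?_⟩
    rw [bar_apply, h, Complex.conj_ofReal]

lemma PN_norm_le (f : ℕ →*₀ ℂ) (C : ℝ) (hC : Bd f C) (hf : Reg f) (N : ℕ) (σ : ℝ)
    (h1 : 1 / 2 < σ) :
    ‖PN f N σ‖ ≤ (∏ p ∈ N.primesBelow, (1 - (p : ℝ) ^ (-(2 * σ)))) ^ 2 := by
  unfold PN
  rw [norm_prod, ← Finset.prod_pow]
  refine Finset.prod_le_prod (fun p _ => norm_nonneg _) (fun p hp' => ?_)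
  have hp := Nat.prime_of_mem_primesBelow hp'
  have hp0 : (0 : ℝ) < p := by exact_mod_cast hp.pos
  have hX : 0 < (p : ℝ) ^ (-σ) := Real.rpow_pos_of_pos hp0 _
  have hX1 : (p : ℝ) ^ (-σ) < 1 :=
    Real.rpow_lt_one_of_one_lt_of_neg (by exact_mod_cast hp.one_lt) (by linarith)
  have e : (p : ℂ) ^ (-(σ : ℂ)) = (((p : ℝ) ^ (-σ) : ℝ) : ℂ) := by
    rw [Complex.ofReal_cpow hp0.le]
    push_cast
    rfl
  rw [e]
  have n1 : ‖1 - (((p : ℝ) ^ (-σ) : ℝ) : ℂ)‖ = 1 - (p : ℝ) ^ (-σ) := by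
    rw [← Complex.ofReal_one, ← Complex.ofReal_sub, Complex.norm_real,
      Real.norm_of_nonneg (by linarith)]
  have n2 := factor_le f C hC hf p hp σ h1
  have n3 := factor_le (bar f) C (Bd_bar f C hC) (Reg_bar f hf) p hp σ h1
  have e2 : (p : ℝ) ^ (-(2 * σ)) = (p : ℝ) ^ (-σ) * (p : ℝ) ^ (-σ) := by
    rw [← Real.rpow_add hp0]
    congr 1
    ring
  rw [norm_mul, norm_mul, norm_mul, n1, e2]
  have n4 : 0 ≤ 1 - (p : ℝ) ^ (-σ) := by linarith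
  calc (1 - (p : ℝ) ^ (-σ)) * (1 - (p : ℝ) ^ (-σ)) *
        (‖1 - gh f p * (((p : ℝ) ^ (-σ) : ℝ) : ℂ)‖ * ‖1 - gh (bar f) p * (((p : ℝ) ^ (-σ) : ℝ) : ℂ)‖)
      ≤ (1 - (p : ℝ) ^ (-σ)) * (1 - (p : ℝ) ^ (-σ)) *
        ((1 + (p : ℝ) ^ (-σ)) * (1 + (p : ℝ) ^ (-σ))) := by gcongr
    _ = _ := by ring

lemma zeta_sq_le (f : ℕ →*₀ ℂ) (C : ℝ) (hC : Bd f C) (hf : Reg f) (σ : ℝ)
    (h1 : 1 / 2 < σ) (h2 : σ ≤ 2) :
    ‖riemannZeta (2 * σ)‖ ^ 2 ≤ ‖Zf f σ‖ * ‖Zf (bar f) σ‖ := by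
  have hlim := (riemannZeta_eulerProduct (s := 2 * (σ : ℂ)) (by simp; linarith)).norm.pow 2
  refine le_of_tendsto hlim (Eventually.of_forall fun N => ?_)
  have hL := landau f C hC hf N σ h1 h2
  have hn : 1 ≤ ‖HN f N σ‖ := by
    have h3 : (1 : ℝ) ≤ (HN f N σ).re := (Complex.le_def.1 hL).1
    exact h3.trans (Complex.re_le_norm _)
  unfold HN at hn
  rw [norm_mul, norm_mul] at hn
  have hP := PN_norm_le f C hC hf N σ h1
  set Q : ℝ := ∏ p ∈ N.primesBelow, (1 - (p : ℝ) ^ (-(2 * σ))) with hQ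
  have hfac : ∀ p ∈ N.primesBelow, 0 < 1 - (p : ℝ) ^ (-(2 * σ)) := by
    intro p hp'
    have hp := Nat.prime_of_mem_primesBelow hp'
    have : (p : ℝ) ^ (-(2 * σ)) < 1 :=
      Real.rpow_lt_one_of_one_lt_of_neg (by exact_mod_cast hp.one_lt) (by linarith)
    linarith
  have hQ0 : 0 < Q := Finset.prod_pos hfac
  have e : ‖∏ p ∈ N.primesBelow, (1 - (p : ℂ) ^ (-(2 * (σ : ℂ))))⁻¹‖ = Q⁻¹ := by
    rw [norm_prod, hQ, ← Finset.prod_inv_distrib]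
    refine Finset.prod_congr rfl fun p hp' => ?_
    have hp := Nat.prime_of_mem_primesBelow hp'
    have hp0 : (0 : ℝ) < p := by exact_mod_cast hp.pos
    have e1 : (p : ℂ) ^ (-(2 * (σ : ℂ))) = (((p : ℝ) ^ (-(2 * σ)) : ℝ) : ℂ) := by
      rw [Complex.ofReal_cpow hp0.le]
      push_cast
      rfl
    rw [e1, norm_inv, ← Complex.ofReal_one, ← Complex.ofReal_sub, Complex.norm_real,
      Real.norm_of_nonneg (hfac p hp').le]
  rw [e, inv_pow]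
  have h4 : 1 ≤ ‖Zf f σ‖ * ‖Zf (bar f) σ‖ * Q ^ 2 :=
    hn.trans (mul_le_mul_of_nonneg_left hP (by positivity))
  rw [inv_le_iff_one_le_mul₀ (by positivity)]
  exact h4

lemma G_small (f : ℕ → ℂ) (C : ℝ) (hC : Bd f C)
    (h1 : (fun N : ℕ => S f N) =o[atTop] (fun N : ℕ => (N : ℝ) ^ (-(1 / 2) : ℝ))) :
    Tendsto (fun σ : ℝ => (2 * σ - 1) * ‖G f σ‖) (𝓝[>] (1 / 2)) (𝓝 0) := by
  rw [Metric.tendsto_nhds]
  intro ε hε
  have h2 := (isLittleO_iff.1 h1) (c := ε / 4) (by positivity)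
  obtain ⟨N0, hN0⟩ := eventually_atTop.1 h2
  set T : ℝ → ℝ := fun a => ∑' n : ℕ, 1 / (n : ℝ) ^ a with hT
  have hTt : Tendsto (fun σ : ℝ => (σ - 1 / 2) * T (1 / 2 + σ)) (𝓝[>] (1 / 2)) (𝓝 1) := by
    have hcomp : Tendsto (fun σ : ℝ => 1 / 2 + σ) (𝓝[>] (1 / 2)) (𝓝[>] 1) := by
      refine tendsto_nhdsWithin_iff.2 ⟨?_, ?_⟩
      · have : Tendsto (fun σ : ℝ => 1 / 2 + σ) (𝓝 (1 / 2)) (𝓝 (1 / 2 + 1 / 2)) :=
          (continuous_const.add continuous_id).tendsto _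
        norm_num at this
        exact this.mono_left nhdsWithin_le_nhds
      · filter_upwards [self_mem_nhdsWithin] with σ hσ
        have : 1 / 2 < σ := hσ
        show 1 < 1 / 2 + σ
        linarith
    refine (tendsto_sub_mul_tsum_nat_rpow.comp hcomp).congr fun σ => ?_
    simp only [Function.comp, hT]
    congr 1
    ring
  have key : ∀ σ : ℝ, 1 / 2 < σ → σ < 1 →
      ‖G f σ‖ ≤ (1 / 2) * (ε / 4 * T (1 / 2 + σ) + N0 * C) := by
    intro σ hσ1 hσ2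
    have hTs : HasSum (fun n : ℕ => ((n + 1 : ℕ) : ℝ) ^ (-(1 / 2 + σ))) (T (1 / 2 + σ)) := by
      have h3 : HasSum (fun n : ℕ => 1 / (n : ℝ) ^ (1 / 2 + σ)) (T (1 / 2 + σ)) :=
        (Real.summable_one_div_nat_rpow.2 (by linarith)).hasSum
      rw [← hasSum_nat_add_iff' 1] at h3
      simp only [Finset.range_one, Finset.sum_singleton, Nat.cast_zero] at h3
      rw [Real.zero_rpow (by linarith), div_zero, sub_zero] at h3
      have e0 : (fun n : ℕ => ((n + 1 : ℕ) : ℝ) ^ (-(1 / 2 + σ))) =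
          fun n : ℕ => 1 / ((n + 1 : ℕ) : ℝ) ^ (1 / 2 + σ) := by
        funext n
        rw [Real.rpow_neg (by positivity), one_div ((((n + 1 : ℕ) : ℝ)) ^ (1 / 2 + σ))]
      rw [e0]
      exact h3
    have hite : HasSum (fun n : ℕ => if n < N0 then C else 0) (N0 * C) := by
      have h4 : HasSum (fun n : ℕ => if n < N0 then C else 0)
          (∑ b ∈ Finset.range N0, (if b < N0 then C else 0)) :=
        hasSum_sum_of_ne_finset_zero (fun b hb => if_neg (by simpa using hb))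
      have e : ∑ b ∈ Finset.range N0, (if b < N0 then C else 0) = N0 * C := by
        rw [Finset.sum_congr rfl (fun b hb => if_pos (Finset.mem_range.1 hb))]
        simp
      rwa [e] at h4
    have hall := ((hTs.mul_left (ε / 4)).add hite).mul_left (1 / 2)
    refine tsum_of_norm_bounded hall (fun n => ?_)
    refine (norm_tm_le f n σ (by simpa using (by linarith : 0 < σ))).trans ?_
    have hn1 : (1 : ℝ) ≤ ((n + 1 : ℕ) : ℝ) := by push_cast; linarith [Nat.cast_nonneg (α := ℝ) n]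
    have hn0 : (0 : ℝ) < ((n + 1 : ℕ) : ℝ) := by linarith
    have e1 : ‖(σ : ℂ) - 1‖ ≤ 1 / 2 := by
      rw [← Complex.ofReal_one, ← Complex.ofReal_sub, Complex.norm_real, Real.norm_eq_abs,
        abs_le]
      constructor <;> linarith
    rw [Complex.ofReal_re]
    have e2 : (0 : ℝ) < ((n + 1 : ℕ) : ℝ) ^ (-σ) := Real.rpow_pos_of_pos hn0 _
    have e3 : ((n + 1 : ℕ) : ℝ) ^ (-σ) ≤ 1 :=
      Real.rpow_le_one_of_one_le_of_nonpos hn1 (by linarith)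
    have main : ‖S f (n + 1)‖ * ((n + 1 : ℕ) : ℝ) ^ (-σ) ≤
        ε / 4 * ((n + 1 : ℕ) : ℝ) ^ (-(1 / 2 + σ)) + (if n < N0 then C else 0) := by
      split_ifs with hlt
      · have h5 := hC.2 (n + 1) (by omega)
        have h6 : ((n + 1 : ℕ) : ℝ) ^ (-(1 / 2) : ℝ) ≤ 1 :=
          Real.rpow_le_one_of_one_le_of_nonpos hn1 (by norm_num)
        have h7 : ‖S f (n + 1)‖ ≤ C := by
          calc ‖S f (n + 1)‖ ≤ C * ((n + 1 : ℕ) : ℝ) ^ (-(1 / 2) : ℝ) := h5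
            _ ≤ C * 1 := mul_le_mul_of_nonneg_left h6 hC.1.le
            _ = C := mul_one C
        have h8 : ‖S f (n + 1)‖ * ((n + 1 : ℕ) : ℝ) ^ (-σ) ≤ C * 1 :=
          mul_le_mul h7 e3 e2.le hC.1.le
        have h9 : 0 ≤ ε / 4 * ((n + 1 : ℕ) : ℝ) ^ (-(1 / 2 + σ)) := by positivity
        linarith
      · have h5 := hN0 (n + 1) (by omega)
        rw [Real.norm_of_nonneg (by positivity)] at h5
        rw [add_zero]
        calc ‖S f (n + 1)‖ * ((n + 1 : ℕ) : ℝ) ^ (-σ)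
            ≤ (ε / 4 * ((n + 1 : ℕ) : ℝ) ^ (-(1 / 2) : ℝ)) * ((n + 1 : ℕ) : ℝ) ^ (-σ) := by gcongr
          _ = ε / 4 * (((n + 1 : ℕ) : ℝ) ^ (-(1 / 2) : ℝ) * ((n + 1 : ℕ) : ℝ) ^ (-σ)) := by ring
          _ = _ := by
            rw [← Real.rpow_add hn0]
            congr 2
            ring
    calc ‖S f (n + 1)‖ * (‖(σ : ℂ) - 1‖ * ((n + 1 : ℕ) : ℝ) ^ (-σ))
        ≤ ‖S f (n + 1)‖ * (1 / 2 * ((n + 1 : ℕ) : ℝ) ^ (-σ)) := by gcongr
      _ = 1 / 2 * (‖S f (n + 1)‖ * ((n + 1 : ℕ) : ℝ) ^ (-σ)) := by ring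
      _ ≤ _ := by gcongr
  have lim : Tendsto (fun σ : ℝ => ε / 4 * ((σ - 1 / 2) * T (1 / 2 + σ)) +
      (σ - 1 / 2) * (N0 * C)) (𝓝[>] (1 / 2)) (𝓝 (ε / 4 * 1 + 0 * (N0 * C))) := by
    refine (hTt.const_mul _).add (Tendsto.mul_const _ ?_)
    have : Tendsto (fun σ : ℝ => σ - 1 / 2) (𝓝 (1 / 2)) (𝓝 (1 / 2 - 1 / 2)) :=
      (continuous_id.sub continuous_const).tendsto _
    rw [sub_self] at this
    exact this.mono_left nhdsWithin_le_nhds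
  have lim2 : ∀ᶠ σ : ℝ in 𝓝[>] (1 / 2), ε / 4 * ((σ - 1 / 2) * T (1 / 2 + σ)) +
      (σ - 1 / 2) * (N0 * C) < ε :=
    lim.eventually (gt_mem_nhds (by linarith))
  have hlt1 : ∀ᶠ σ : ℝ in 𝓝[>] (1 / 2), σ < 1 :=
    (gt_mem_nhds (by norm_num : (1 / 2 : ℝ) < 1)).filter_mono nhdsWithin_le_nhds
  filter_upwards [lim2, hlt1, self_mem_nhdsWithin] with σ a1 a2 a3
  have a3' : 1 / 2 < σ := a3
  rw [Real.dist_eq, sub_zero, abs_of_nonneg (mul_nonneg (by linarith) (norm_nonneg _))]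
  refine lt_of_le_of_lt ?_ a1
  have := mul_le_mul_of_nonneg_left (key σ a3' a2) (by linarith : (0 : ℝ) ≤ 2 * σ - 1)
  refine this.trans (le_of_eq ?_)
  ring

theorem core (f : ℕ →*₀ ℂ) (hf : Reg f)
    (h1 : (fun N : ℕ => S f N) =o[atTop] (fun N : ℕ => (N : ℝ) ^ (-(1 / 2) : ℝ))) : False := by
  obtain ⟨C, hC⟩ := exists_Bd f h1
  have h1' : (fun N : ℕ => S (bar f) N) =o[atTop] (fun N : ℕ => (N : ℝ) ^ (-(1 / 2) : ℝ)) := by
    refine IsLittleO.congr' (f₁ := fun N : ℕ => (starRingEnd ℂ) (S f N)) ?_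
      (Eventually.of_forall fun N => (S_bar f N).symm) (EventuallyEq.refl _ _)
    refine (isLittleO_norm_left).1 ?_
    simp only [RCLike.norm_conj]
    exact (isLittleO_norm_left).2 h1
  have t1 := G_small f C hC h1
  have t2 := G_small (bar f) C (Bd_bar f C hC) h1'
  have t3 : Tendsto (fun σ : ℝ => ‖riemannZeta σ‖) (𝓝[>] (1 / 2)) (𝓝 ‖riemannZeta ((1 / 2 : ℝ) : ℂ)‖) := by
    have hc : ContinuousAt (fun σ : ℝ => ‖riemannZeta σ‖) (1 / 2) := by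
      refine ContinuousAt.norm ?_
      have hd : DifferentiableAt ℂ riemannZeta ((1 / 2 : ℝ) : ℂ) :=
        differentiableAt_riemannZeta (by
          intro h
          have := congrArg Complex.re h
          norm_num at this)
      exact ContinuousAt.comp (f := fun σ : ℝ => (σ : ℂ)) hd.continuousAt
        Complex.continuous_ofReal.continuousAt
    exact hc.tendsto.mono_left nhdsWithin_le_nhds
  have t4 : Tendsto (fun σ : ℝ => (2 * σ - 1) * ‖riemannZeta (2 * σ)‖) (𝓝[>] (1 / 2)) (𝓝 1) := by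
    have hcomp : Tendsto (fun σ : ℝ => 2 * (σ : ℂ)) (𝓝[>] (1 / 2)) (𝓝[≠] 1) := by
      refine tendsto_nhdsWithin_iff.2 ⟨?_, ?_⟩
      · have : Tendsto (fun σ : ℝ => 2 * (σ : ℂ)) (𝓝 (1 / 2)) (𝓝 (2 * ((1 / 2 : ℝ) : ℂ))) :=
          (continuous_const.mul Complex.continuous_ofReal).tendsto _
        have e : 2 * ((1 / 2 : ℝ) : ℂ) = 1 := by push_cast; norm_num
        rw [e] at this
        exact this.mono_left nhdsWithin_le_nhds
      · filter_upwards [self_mem_nhdsWithin] with σ hσ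
        have hσ' : 1 / 2 < σ := hσ
        intro h
        have := congrArg Complex.re h
        simp at this
        linarith
    have h5 := (riemannZeta_residue_one.comp hcomp).norm
    rw [norm_one] at h5
    refine h5.congr' ?_
    filter_upwards [self_mem_nhdsWithin] with σ hσ
    have hσ' : 1 / 2 < σ := hσ
    simp only [Function.comp]
    rw [norm_mul]
    congr 1
    have e : 2 * (σ : ℂ) - 1 = ((2 * σ - 1 : ℝ) : ℂ) := by push_cast; ring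
    rw [e, Complex.norm_real, Real.norm_of_nonneg (by linarith)]
  have hle : ∀ᶠ σ : ℝ in 𝓝[>] (1 / 2), ((2 * σ - 1) * ‖riemannZeta (2 * σ)‖) ^ 2 ≤
      ‖riemannZeta σ‖ ^ 2 * (((2 * σ - 1) * ‖G f σ‖) * ((2 * σ - 1) * ‖G (bar f) σ‖)) := by
    have hlt1 : ∀ᶠ σ : ℝ in 𝓝[>] (1 / 2), σ < 1 :=
      (gt_mem_nhds (by norm_num : (1 / 2 : ℝ) < 1)).filter_mono nhdsWithin_le_nhds
    filter_upwards [hlt1, self_mem_nhdsWithin] with σ a2 a3
    have a3' : 1 / 2 < σ := a3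
    have hne : (σ : ℂ) ≠ 1 := by
      intro h
      have := congrArg Complex.re h
      simp at this
      linarith
    have h6 := zeta_sq_le f C hC hf σ a3' (by linarith)
    rw [Zf_of_ne _ hne, Zf_of_ne _ hne, norm_mul, norm_mul] at h6
    have h7 := mul_le_mul_of_nonneg_left h6 (sq_nonneg (2 * σ - 1))
    calc ((2 * σ - 1) * ‖riemannZeta (2 * σ)‖) ^ 2
        = (2 * σ - 1) ^ 2 * ‖riemannZeta (2 * σ)‖ ^ 2 := by ring
      _ ≤ _ := h7
      _ = _ := by ring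
  have hlim := le_of_tendsto_of_tendsto (t4.pow 2) ((t3.pow 2).mul (t1.mul t2)) hle
  norm_num at hlim

end Pool.Agent.H280R3.MO
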