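import Pool.Agent.H280R3.MO.E

/-!
# Removing finitely many primes, and the final statements for completely multiplicative functions
-/

set_option autoImplicit false

namespace Pool.Agent.H280R3.MO

open Finset Complex Filter Topology Asymptotics

lemma sum_multiples (P : ℕ) (hP : 0 < P) (h : ℕ → ℂ) (N : ℕ) :
    ∑ n ∈ Icc 1 N, (if P ∣ n then h n else 0) = ∑ m ∈ Icc 1 (N / P), h (P * m) := by
  rw [← Finset.sum_filter]
  symm
  refine Finset.sum_nbij' (fun m => P * m) (fun n => n / P) ?_ ?_ ?_ ?_ ?_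
  · intro m hm
    rw [Finset.mem_Icc] at hm
    rw [Finset.mem_filter, Finset.mem_Icc]
    refine ⟨⟨Nat.mul_pos hP hm.1, ?_⟩, dvd_mul_right _ _⟩
    calc P * m ≤ P * (N / P) := Nat.mul_le_mul_left _ hm.2
      _ ≤ N := Nat.mul_div_le _ _
  · intro n hn
    rw [Finset.mem_filter, Finset.mem_Icc] at hn
    rw [Finset.mem_Icc]
    refine ⟨?_, Nat.div_le_div_right hn.1.2⟩
    exact Nat.div_pos (Nat.le_of_dvd hn.1.1 hn.2) hP
  · intro m hm
    exact Nat.mul_div_cancel_left _ hP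
  · intro n hn
    rw [Finset.mem_filter] at hn
    exact Nat.mul_div_cancel' hn.2
  · intro m hm
    rfl

lemma S_cut_succ (P : ℕ) (hP : P.Prime) (u : ℕ →*₀ ℂ) (N : ℕ) :
    S (cut (P + 1) u) N = S (cut P u) N - u P * S (cut P u) (N / P) := by
  unfold S
  rw [Finset.sum_congr rfl (fun n _ => cut_succ P hP u n), Finset.sum_sub_distrib,
    sum_multiples P hP.pos, Finset.mul_sum]
  congr 1
  refine Finset.sum_congr rfl fun m _ => ?_
  rw [map_mul, cut_self P hP]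

lemma div_littleO (g : ℕ → ℂ) (P : ℕ) (hP : 0 < P)
    (h1 : g =o[atTop] (fun N : ℕ => (N : ℝ) ^ (-(1 / 2) : ℝ))) :
    (fun N : ℕ => g (N / P)) =o[atTop] (fun N : ℕ => (N : ℝ) ^ (-(1 / 2) : ℝ)) := by
  have ht : Tendsto (fun N : ℕ => N / P) atTop atTop := Nat.tendsto_div_const_atTop hP.ne'
  have h2 := h1.comp_tendsto ht
  refine IsLittleO.trans_isBigO h2 ?_
  refine IsBigO.of_bound ((2 * P : ℝ) ^ ((1 / 2) : ℝ)) ?_
  filter_upwards [eventually_ge_atTop P] with N hN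
  have hP0 : (0 : ℝ) < P := by exact_mod_cast hP
  have hN0 : (0 : ℝ) < N := by exact_mod_cast hP.trans_le hN
  have hk : 1 ≤ N / P := Nat.div_pos hN hP
  have hk0 : (0 : ℝ) < ((N / P : ℕ) : ℝ) := by exact_mod_cast hk
  have hlt : N < P * (N / P + 1) := Nat.lt_mul_div_succ N hP
  have hle : (N : ℝ) / (2 * P) ≤ ((N / P : ℕ) : ℝ) := by
    rw [div_le_iff₀ (by positivity)]
    have : N ≤ (N / P) * (2 * P) := by nlinarith
    exact_mod_cast this
  simp only [Function.comp]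
  rw [Real.norm_of_nonneg (by positivity), Real.norm_of_nonneg (by positivity)]
  calc ((N / P : ℕ) : ℝ) ^ (-(1 / 2) : ℝ) ≤ ((N : ℝ) / (2 * P)) ^ (-(1 / 2) : ℝ) :=
        Real.rpow_le_rpow_of_nonpos (by positivity) hle (by norm_num)
    _ = (2 * P : ℝ) ^ ((1 / 2) : ℝ) * (N : ℝ) ^ (-(1 / 2) : ℝ) := by
        rw [Real.div_rpow hN0.le (by positivity), Real.rpow_neg (by positivity : (0 : ℝ) ≤ 2 * P)]
        field_simp

lemma cut_littleO (u : ℕ →*₀ ℂ)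
    (h1 : (fun N : ℕ => S u N) =o[atTop] (fun N : ℕ => (N : ℝ) ^ (-(1 / 2) : ℝ))) (P : ℕ) :
    (fun N : ℕ => S (cut P u) N) =o[atTop] (fun N : ℕ => (N : ℝ) ^ (-(1 / 2) : ℝ)) := by
  induction P with
  | zero => rw [cut_zero]; exact h1
  | succ P ih =>
    by_cases hP : P.Prime
    · have e : (fun N : ℕ => S (cut (P + 1) u) N) =
          fun N : ℕ => S (cut P u) N - u P * S (cut P u) (N / P) := by
        funext N
        exact S_cut_succ P hP u N
      rw [e]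
      exact ih.sub ((div_littleO _ P hP.pos ih).const_mul_left _)
    · rw [cut_succ' P hP]
      exact ih

/-- the completely multiplicative function with value `0` at `0` -/
noncomputable def toHom (f : ℕ → ℂ) (h1 : f 1 = 1)
    (hm : ∀ m n : ℕ, 1 ≤ m → 1 ≤ n → f (m * n) = f m * f n) : ℕ →*₀ ℂ where
  toFun n := if n = 0 then 0 else f n
  map_zero' := by simp
  map_one' := by simp [h1]
  map_mul' m n := by
    rcases Nat.eq_zero_or_pos m with rfl | hm0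
    · simp
    rcases Nat.eq_zero_or_pos n with rfl | hn0
    · simp
    · rw [if_neg hm0.ne', if_neg hn0.ne', if_neg (Nat.mul_pos hm0 hn0).ne', hm m n hm0 hn0]

lemma toHom_apply (f : ℕ → ℂ) (h1 : f 1 = 1)
    (hm : ∀ m n : ℕ, 1 ≤ m → 1 ≤ n → f (m * n) = f m * f n) (n : ℕ) (hn : 1 ≤ n) :
    toHom f h1 hm n = f n := by
  show (if n = 0 then 0 else f n) = f n
  rw [if_neg (by omega)]

lemma S_toHom (f : ℕ → ℂ) (h1 : f 1 = 1)
    (hm : ∀ m n : ℕ, 1 ≤ m → 1 ≤ n → f (m * n) = f m * f n) (N : ℕ) :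
    S (toHom f h1 hm) N = ∑ n ∈ Icc 1 N, f n :=
  Finset.sum_congr rfl fun n hn => toHom_apply f h1 hm n (Finset.mem_Icc.1 hn).1

lemma nat_of_real (f : ℕ → ℂ) (c : ℝ)
    (h : (fun x : ℝ => ∑ n ∈ Icc 1 ⌊x⌋₊, f n) =o[atTop] (fun x : ℝ => x ^ c)) :
    (fun N : ℕ => ∑ n ∈ Icc 1 N, f n) =o[atTop] (fun N : ℕ => (N : ℝ) ^ c) := by
  have := h.comp_tendsto tendsto_natCast_atTop_atTop
  refine this.congr (fun N => ?_) (fun N => rfl)
  simp only [Function.comp, Nat.floor_natCast]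

/-- the class theorem -/
theorem classThm (f : ℕ → ℂ) (h1 : f 1 = 1)
    (hm : ∀ m n : ℕ, 1 ≤ m → 1 ≤ n → f (m * n) = f m * f n)
    (hfin : {p : ℕ | p.Prime ∧ ¬ (‖f p‖ ≤ 1 / p ∨ ∃ r : ℝ, 0 ≤ r ∧ f p = r)}.Finite) :
    ¬ (fun x : ℝ => ∑ n ∈ Icc 1 ⌊x⌋₊, f n) =o[atTop] (fun x : ℝ => x ^ (-(1 / 2) : ℝ)) := by
  intro hcon
  have h2 := nat_of_real f _ hcon
  have h3 : (fun N : ℕ => S (toHom f h1 hm) N) =o[atTop]
      (fun N : ℕ => (N : ℝ) ^ (-(1 / 2) : ℝ)) := by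
    refine h2.congr (fun N => (S_toHom f h1 hm N).symm) (fun N => rfl)
  obtain ⟨B, hB⟩ := hfin.bddAbove
  have h4 := cut_littleO _ h3 (B + 1)
  refine core (cut (B + 1) (toHom f h1 hm)) ?_ h4
  intro p hp
  by_cases hpB : B + 1 ≤ p
  · have e : cut (B + 1) (toHom f h1 hm) p = f p := by
      rw [cut_of _ _ _ ((Rg_prime _ _ hp).2 hpB), toHom_apply _ _ _ _ hp.one_le]
    rw [e]
    by_contra hne
    have : p ≤ B := hB ⟨hp, hne⟩
    omega
  · left
    rw [cut_not _ _ _ (fun h => hpB ((Rg_prime _ _ hp).1 h)), norm_zero]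
    positivity

/-- a completely multiplicative function with small values at infinity and `|f q| > 1/q` -/
theorem bigPrime (f : ℕ → ℂ) (h1 : f 1 = 1)
    (hm : ∀ m n : ℕ, 1 ≤ m → 1 ≤ n → f (m * n) = f m * f n)
    (hs : Tendsto (fun N : ℕ => ∑ n ∈ Icc 1 N, f n) atTop (𝓝 0))
    (q : ℕ) (hq : q.Prime) (hfq : 1 / (q : ℝ) < ‖f q‖) :
    ∃ δ : ℝ, 0 < δ ∧
      ¬ (fun x : ℝ => ∑ n ∈ Icc 1 ⌊x⌋₊, f n) =o[atTop] (fun x : ℝ => x ^ (-1 + δ)) := by
  have hq0 : (0 : ℝ) < q := by exact_mod_cast hq.pos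
  have hq1 : (1 : ℝ) < q := by exact_mod_cast hq.one_lt
  have hlq : 0 < Real.log q := Real.log_pos hq1
  have hf0 : 0 < ‖f q‖ := lt_trans (by positivity) hfq
  have hpow : ∀ k : ℕ, f (q ^ k) = f q ^ k := by
    intro k
    induction k with
    | zero => simp [h1]
    | succ k ih => rw [pow_succ, hm _ _ (Nat.one_le_pow _ _ hq.pos) hq.one_le, ih, pow_succ]
  have hdiff : ∀ N : ℕ, 1 ≤ N → ∑ n ∈ Icc 1 N, f n - ∑ n ∈ Icc 1 (N - 1), f n = f N := by
    intro N hN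
    obtain ⟨M, rfl⟩ : ∃ M, N = M + 1 := ⟨N - 1, by omega⟩
    rw [Finset.sum_Icc_succ_top (by omega)]
    simp
  have hqk : Tendsto (fun k : ℕ => q ^ k) atTop atTop := tendsto_pow_atTop_atTop_of_one_lt hq.one_lt
  have hqk1 : Tendsto (fun k : ℕ => q ^ k - 1) atTop atTop :=
    (tendsto_sub_atTop_nat 1).comp hqk
  have hlim : Tendsto (fun k : ℕ => f (q ^ k)) atTop (𝓝 0) := by
    have := (hs.comp hqk).sub (hs.comp hqk1)
    rw [sub_zero] at this
    refine this.congr fun k => ?_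
    exact hdiff _ (Nat.one_le_pow _ _ hq.pos)
  have hlt1 : ‖f q‖ < 1 := by
    by_contra hge
    push Not at hge
    have h2 := hlim.norm
    rw [norm_zero] at h2
    have h3 : (1 : ℝ) ≤ 0 := by
      refine ge_of_tendsto h2 (Eventually.of_forall fun k => ?_)
      rw [hpow, norm_pow]
      exact one_le_pow₀ hge
    linarith
  set δ : ℝ := 1 + Real.log ‖f q‖ / Real.log q with hδ
  have hexp : (q : ℝ) ^ (-1 + δ) = ‖f q‖ := by
    rw [hδ, Real.rpow_def_of_pos hq0]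
    have : Real.log q * (-1 + (1 + Real.log ‖f q‖ / Real.log q)) = Real.log ‖f q‖ := by
      field_simp
      ring
    rw [this, Real.exp_log hf0]
  have hneg : -1 + δ < 0 := by
    rw [hδ]
    have : Real.log ‖f q‖ / Real.log q < 0 := div_neg_of_neg_of_pos (Real.log_neg hf0 hlt1) hlq
    linarith
  have hδ0 : 0 < δ := by
    rw [hδ]
    have h2 : Real.log (1 / (q : ℝ)) < Real.log ‖f q‖ := Real.log_lt_log (by positivity) hfq
    rw [one_div, Real.log_inv] at h2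
    have : -1 < Real.log ‖f q‖ / Real.log q := by
      rw [lt_div_iff₀ hlq]
      linarith
    linarith
  refine ⟨δ, hδ0, fun hcon => ?_⟩
  have h2 := isLittleO_iff.1 (nat_of_real f _ hcon) (c := 1 / 8) (by norm_num)
  have h3 := hqk.eventually h2
  have h4 := hqk1.eventually h2
  obtain ⟨k, hk1, hk2, hk3⟩ := (h3.and (h4.and (eventually_ge_atTop 1))).exists
  have hqk2 : 2 ≤ q ^ k := by
    calc 2 ≤ q := hq.two_le
      _ = q ^ 1 := (pow_one q).symm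
      _ ≤ q ^ k := Nat.pow_le_pow_right hq.pos hk3
  have hX : (2 : ℝ) ≤ ((q ^ k : ℕ) : ℝ) := by exact_mod_cast hqk2
  have hX0 : (0 : ℝ) < ((q ^ k : ℕ) : ℝ) := by linarith
  have hY : (((q ^ k - 1 : ℕ)) : ℝ) = ((q ^ k : ℕ) : ℝ) - 1 := by
    rw [Nat.cast_sub (by omega)]
    simp
  have hYX : ((q ^ k : ℕ) : ℝ) / 2 ≤ ((q ^ k - 1 : ℕ) : ℝ) := by
    rw [hY]
    linarith
  have hYb : ((q ^ k - 1 : ℕ) : ℝ) ^ (-1 + δ) ≤ 2 * ((q ^ k : ℕ) : ℝ) ^ (-1 + δ) := by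
    calc ((q ^ k - 1 : ℕ) : ℝ) ^ (-1 + δ) ≤ (((q ^ k : ℕ) : ℝ) / 2) ^ (-1 + δ) :=
          Real.rpow_le_rpow_of_nonpos (by positivity) hYX hneg.le
      _ = ((q ^ k : ℕ) : ℝ) ^ (-1 + δ) * (2 : ℝ) ^ (1 - δ) := by
          rw [Real.div_rpow hX0.le (by norm_num), div_eq_mul_inv, ← Real.rpow_neg (by norm_num)]
          congr 2
          ring
      _ ≤ ((q ^ k : ℕ) : ℝ) ^ (-1 + δ) * (2 : ℝ) ^ (1 : ℝ) := by
          gcongr
          · norm_num
          · linarith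
      _ = _ := by rw [Real.rpow_one]; ring
  have hval : ‖f (q ^ k)‖ = ((q ^ k : ℕ) : ℝ) ^ (-1 + δ) := by
    rw [hpow, norm_pow, ← hexp]
    push_cast
    rw [← Real.rpow_natCast, ← Real.rpow_natCast, ← Real.rpow_mul hq0.le, ← Real.rpow_mul hq0.le]
    congr 1
    ring
  have hpos : 0 < ((q ^ k : ℕ) : ℝ) ^ (-1 + δ) := Real.rpow_pos_of_pos hX0 _
  have h5 : ‖f (q ^ k)‖ ≤ ‖∑ n ∈ Icc 1 (q ^ k), f n‖ + ‖∑ n ∈ Icc 1 (q ^ k - 1), f n‖ := by
    rw [← hdiff (q ^ k) (by omega)]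
    exact norm_sub_le _ _
  rw [Real.norm_of_nonneg (by positivity)] at hk1 hk2
  rw [hval] at h5
  linarith

end Pool.Agent.H280R3.MO
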